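import Pool.Agent.H89.CNK.DRV

/-!
# Row `DRU`: uniqueness of the derivation

`D` vanishes on `k(t)`; `L` is separable over `k(t)`, so formally unramified.
-/

set_option autoImplicit false

namespace Pool.CND

theorem dru_thm : S_DRU := by
  intro k L G _ _ _ _ _ ρ t D hc hadd hmul hcon ht x
  have h1 : D 1 = 0 := by
    have h := hcon 1
    rwa [map_one] at h
  have h0 : D 0 = 0 := by
    have h := hcon 0
    rwa [map_zero] at h
  let F : IntermediateField k L :=
    { carrier := {x | D x = 0}
      mul_mem' := by
        intro a b ha hb
        have ha' : D a = 0 := ha
        have hb' : D b = 0 := hb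
        show D (a * b) = 0
        rw [hmul, ha', hb', mul_zero, mul_zero, add_zero]
      one_mem' := h1
      add_mem' := by
        intro a b ha hb
        have ha' : D a = 0 := ha
        have hb' : D b = 0 := hb
        show D (a + b) = 0
        rw [hadd, ha', hb', add_zero]
      zero_mem' := h0
      algebraMap_mem' := hcon
      inv_mem' := by
        intro a ha
        have ha' : D a = 0 := ha
        show D a⁻¹ = 0
        by_cases h : a = 0
        · rw [h, inv_zero]; exact h0
        · have h2 := hmul a a⁻¹
          rw [mul_inv_cancel₀ h, h1, ha', mul_zero, add_zero] at h2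
          exact (mul_eq_zero.mp h2.symm).resolve_left h }
  have hF : IntermediateField.adjoin k {t} ≤ F := by
    rw [IntermediateField.adjoin_simple_le_iff]
    exact ht
  have hK : ∀ c : IntermediateField.adjoin k {t}, D (c : L) = 0 := fun c => hF c.2
  have hsep := drv_sep k L G ρ t hc
  have hun : Algebra.FormallyUnramified (IntermediateField.adjoin k {t}) L :=
    Algebra.FormallyUnramified.of_isSeparable _ _
  let d : Derivation (IntermediateField.adjoin k {t}) L L :=
    { toFun := D
      map_add' := hadd
      map_smul' := by
        intro c y
        show D (c • y) = c • D y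
        rw [Algebra.smul_def, Algebra.smul_def, hmul]
        have h3 : D (algebraMap (IntermediateField.adjoin k {t}) L c) = 0 := hK c
        rw [h3, mul_zero, add_zero]
      map_one_eq_zero' := h1
      leibniz' := by
        intro a b
        show D (a * b) = a • D b + b • D a
        rw [hmul, smul_eq_mul, smul_eq_mul] }
  have hsub : Subsingleton (Ω[L⁄IntermediateField.adjoin k {t}]) := inferInstance
  have h4 : d x = d.liftKaehlerDifferential (KaehlerDifferential.D _ L x) :=
    (Derivation.liftKaehlerDifferential_comp_D d x).symm
  have h5 : KaehlerDifferential.D (IntermediateField.adjoin k {t}) L x = 0 :=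
    Subsingleton.elim _ _
  rw [h5, map_zero] at h4
  exact h4

end Pool.CND
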